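import Pool.Agent.V1282.TR.Sign

/-!
# The parameter derivative of the transport solution can be negative
-/

open MeasureTheory Set Metric Filter Topology
open Pool.Agent.V1282.TR

noncomputable section

namespace Pool.Agent.Results.MP_f7849a_an.NegativeDerivative

/-- `M` is the bounded measurable solution on `V × S²` (extended by `0` outside `V`) of
`M(r,w) = 1 - e^{-D} + (λ/4π) ∫₀^D e^{-λx} ∫_{S²} M(r + x w, w') dw' dx`. -/
structure IsSol (V : Set E3) (lam : ℝ) (M : E3 → S2 → ℝ) : Prop where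
  meas : Measurable (fun p : E3 × S2 => M p.1 p.2)
  bdd : ∃ C, ∀ r w, |M r w| ≤ C
  zero : ∀ r, r ∉ V → ∀ w, M r w = 0
  eqn : ∀ r ∈ V, ∀ w : S2, M r w = 1 - Real.exp (-exitDist V r w)
      + lam / (4 * Real.pi) * ∫ x in (0 : ℝ)..exitDist V r w,
          Real.exp (-lam * x) * ∫ w' : S2, M (r + x • (w : E3)) w' ∂surf

lemma conv {V : Set E3} {lam : ℝ} {r : E3} {w : S2} (hr : r ∈ V) {f : E3 → ℝ}
    {M : E3 → S2 → ℝ} (hf : ∀ r, ∫ w', M r w' ∂nu = f r) :
    lam / (4 * Real.pi) * ∫ x in (0 : ℝ)..exitDist V r w,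
          Real.exp (-lam * x) * ∫ w' : S2, M (r + x • (w : E3)) w' ∂surf
      = J V (kl lam) f r w := by
  rw [J, Dm, if_pos hr, ← intervalIntegral.integral_const_mul]
  congr 1
  ext x
  rw [← hf, integral_nu, kl]
  have := four_pi_pos
  field_simp

theorem result : ∃ V : Set E3, V.Nonempty ∧ IsOpen V ∧ Bornology.IsBounded V ∧
    ∃ r ∈ V, ∃ w : S2, ∃ M : ℝ → E3 → S2 → ℝ,
      (∀ lam, 0 < lam → IsSol V lam (M lam) ∧ ∀ M', IsSol V lam M' → M' = M lam) ∧
      ∃ d : ℝ, d < 0 ∧ HasDerivAt (fun lam => M lam r w) d 1 := by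
  obtain ⟨δ, L, P, hL, hP, key⟩ := exists_neg
  have hdom : Dom (Vd δ L) L := Vd_dom hL
  set V := Vd δ L with hV
  have hex : ∀ lam : ℝ, ∃ u : E3 → ℝ, 0 < lam →
      (Bd u ∧ ∀ r, u r = Gb V r + Av V (kl lam) u r) := by
    intro lam
    by_cases hl : 0 < lam
    · obtain ⟨u, hu⟩ := exists_sol hdom hl (Gb_Bd hdom)
      exact ⟨u, fun _ => hu⟩
    · exact ⟨0, fun h => absurd h hl⟩
  choose u hu using hex
  obtain ⟨n, hn, hnf⟩ := exists_sol hdom one_pos (Av_Bd hdom kp_cont (hu 1 one_pos).1)
  refine ⟨V, ⟨P, hP⟩, hdom.op, ?_, P, hP, w0,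
    fun lam r w => (1 - Real.exp (-Dm V r w)) + J V (kl lam) (u lam) r w, ?_, ?_⟩
  · exact Metric.isBounded_ball.subset (fun x hx => by
      rw [mem_ball_zero_iff]; exact hdom.bd x hx : V ⊆ ball 0 L)
  · intro lam hl
    obtain ⟨hub, hue⟩ := hu lam hl
    have havg : ∀ r, ∫ w', ((1 - Real.exp (-Dm V r w')) + J V (kl lam) (u lam) r w') ∂nu
        = u lam r := by
      intro r
      rw [integral_add (G_int hdom r) (J_int hdom (kl_cont lam) hub r)]
      exact (hue r).symm
    refine ⟨⟨?_, ?_, ?_, ?_⟩, ?_⟩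
    · exact (measurable_const.sub (Dm_meas hdom.op hdom.pos hdom.bd).neg.exp).add
        (J_meas hdom (kl_cont lam) hub)
    · obtain ⟨C, hC0, hC⟩ := hub.exists_nonneg
      refine ⟨1 + C, fun r w => ?_⟩
      have h1 := Real.exp_pos (-Dm V r w)
      have h2 : Real.exp (-Dm V r w) ≤ 1 :=
        Real.exp_le_one_iff.2 (by linarith [Dm_nonneg V r w])
      have h3 := J_kl_bound hdom hl hub hC r w
      have h4 := Real.exp_pos (-lam * Dm V r w)
      refine (abs_add_le _ _).trans (add_le_add ?_ ?_)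
      · rw [abs_of_nonneg (by linarith)]; linarith
      · refine h3.trans ?_
        nlinarith
    · intro r hr w
      simp [J, Dm, if_neg hr]
    · intro r hr w
      have hD : Dm V r w = exitDist V r w := by rw [Dm, if_pos hr]
      show (1 - Real.exp (-Dm V r w)) + J V (kl lam) (u lam) r w = _
      rw [conv hr havg, hD]
    · intro M' hM'
      obtain ⟨C, hC⟩ := hM'.bdd
      set u' : E3 → ℝ := fun r => ∫ w', M' r w' ∂nu with hu'
      have hMi : ∀ r, Integrable (fun w => M' r w) nu := fun r =>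
        Integrable.of_bound (hM'.meas.comp measurable_prodMk_left).aestronglyMeasurable C
          (ae_of_all _ fun w => by rw [Real.norm_eq_abs]; exact hC r w)
      have hub' : Bd u' := by
        refine ⟨(hM'.meas.stronglyMeasurable.integral_prod_right').measurable, C, fun r => ?_⟩
        refine abs_integral_le_integral_abs.trans ?_
        have : ∫ w, |M' r w| ∂nu ≤ ∫ _w : S2, C ∂nu :=
          integral_mono (hMi r).abs (integrable_const _) (fun w => hC r w)
        simpa using this
      have hform : ∀ r w, M' r w = (1 - Real.exp (-Dm V r w)) + J V (kl lam) u' r w := by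
        intro r w
        by_cases hr : r ∈ V
        · rw [hM'.eqn r hr w, conv hr (fun r => rfl : ∀ r, ∫ w', M' r w' ∂nu = u' r)]
          rw [Dm, if_pos hr]
        · rw [hM'.zero r hr w]
          simp [J, Dm, if_neg hr]
      have hue' : ∀ r, u' r = Gb V r + Av V (kl lam) u' r := by
        intro r
        have h1 : u' r = ∫ w, ((1 - Real.exp (-Dm V r w)) + J V (kl lam) u' r w) ∂nu := by
          rw [hu']
          exact integral_congr_ae (ae_of_all _ fun w => hform r w)
        rw [integral_add (G_int hdom r) (J_int hdom (kl_cont lam) hub' r)] at h1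
        exact h1
      have huu := sol_unique hdom hl hub' hub hue' hue
      ext r w
      rw [hform r w, huu]
  · refine ⟨_, key (u 1) n (hu 1 one_pos).1 hn (hu 1 one_pos).2 hnf, ?_⟩
    exact deriv_thm hdom (fun lam hl => (hu lam hl).1) (fun lam hl => (hu lam hl).2) hn hnf P w0

end Pool.Agent.Results.MP_f7849a_an.NegativeDerivative
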